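import Pool.Agent.Lib.MP_1e64e3_lc.Round
import Pool.Agent.Lib.PolyTime.Words

/-!
# The decision procedure for domination
-/

namespace Pool.Agent.BalChord

open Pool.Agent.PolyTime

/-! ### The procedure -/

/-- The weights. -/
def weights (k t : ℕ) (c : List ℕ) : List ℕ := c.map fun a => t - k * a

/-- The weight of a row. -/
def score (row : List Bool) (w : List ℕ) : ℕ :=
  ((row.zip w).map fun p => if p.1 = true then p.2 else 0).sum

/-- Counting a row. -/
def bump (row : List Bool) (c : List ℕ) : List ℕ := (row.zip c).map fun p => p.2 + p.1.toNat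

/-- The rows of large weight. -/
def cands (k : ℕ) (rows : List (List Bool)) (w : List ℕ) : List (List Bool) :=
  rows.filter fun row => decide (w.sum ≤ k * score row w)

/-- One round. -/
def step (q : List (List Bool) × ℕ) (s : ℕ × List ℕ × Bool) : ℕ × List ℕ × Bool :=
  match cands q.2 q.1 (weights q.2 s.1 s.2.1) with
  | [] => (s.1 + 1, s.2.1, false)
  | row :: _ => (s.1 + 1, bump row s.2.1, s.2.2)

/-- The first `n` numbers in decreasing order. -/
def down (n : ℕ) : List ℕ := (fun l : List ℕ => l.length :: l)^[n] []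

/-- Adding the diagonal. -/
def closeRows (rows : List (List Bool)) : List (List Bool) :=
  ((down rows.length).reverse.zip rows).map fun p =>
    ((down rows.length).reverse.zip p.2).map fun q => q.2 || decide (q.1 = p.1)

/-- The main loop. -/
def loop (rows : List (List Bool)) (k : ℕ) : ℕ × List ℕ × Bool :=
  (step (rows, k))^[(rows.length + 1) ^ 5] (0, List.replicate rows.length 0, true)

/-- The decision procedure on the list of rows of the adjacency matrix. -/
def decRows (rows : List (List Bool)) (k : ℕ) : Bool :=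
  decide (rows.length ≤ k) || (decide (1 ≤ k) && (loop (closeRows rows) k).2.2)

/-- The decision procedure on the reversed list of blocks of the input. -/
def decW (bs : List (List Bool)) : Bool :=
  match bs with
  | [] => false
  | kb :: rs => decRows rs.reverse (capVal rs.length kb)

/-! ### Lists as functions -/

theorem down_eq (n : ℕ) : down n = (List.range n).reverse := by
  induction n with
  | zero => rfl
  | succ n ih =>
    unfold down at ih ⊢
    rw [Function.iterate_succ_apply', ih, List.range_succ]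
    simp

theorem range_eq_ofFn (n : ℕ) : List.range n = List.ofFn (fun i : Fin n => i.val) := by
  apply List.ext_getElem
  · simp
  · intro i h1 h2
    simp

theorem zip_ofFn {n : ℕ} {α β : Type} (f : Fin n → α) (g : Fin n → β) :
    (List.ofFn f).zip (List.ofFn g) = List.ofFn fun i => (f i, g i) := by
  apply List.ext_getElem
  · simp
  · intro i h1 h2
    simp

theorem closeRows_ofFn {n : ℕ} (a : Fin n → Fin n → Bool) :
    closeRows (List.ofFn fun j => List.ofFn (a j)) =
      List.ofFn fun j => List.ofFn fun i => a j i || decide (i = j) := by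
  unfold closeRows
  rw [List.length_ofFn, down_eq, List.reverse_reverse, range_eq_ofFn, zip_ofFn, List.map_ofFn]
  congr 1
  funext j
  simp only [Function.comp_apply]
  rw [zip_ofFn, List.map_ofFn]
  congr 1
  funext i
  simp [Fin.ext_iff]

theorem weights_ofFn {n : ℕ} (k t : ℕ) (c : Fin n → ℕ) :
    weights k t (List.ofFn c) = List.ofFn fun i => t - k * c i := by
  unfold weights
  rw [List.map_ofFn]
  rfl

theorem score_ofFn {n : ℕ} (b : Fin n → Bool) (w : Fin n → ℕ) :
    score (List.ofFn b) (List.ofFn w) = ∑ i, if b i = true then w i else 0 := by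
  unfold score
  rw [zip_ofFn, List.map_ofFn, List.sum_ofFn]
  rfl

theorem bump_ofFn {n : ℕ} (b : Fin n → Bool) (c : Fin n → ℕ) :
    bump (List.ofFn b) (List.ofFn c) = List.ofFn fun i => c i + (b i).toNat := by
  unfold bump
  rw [zip_ofFn, List.map_ofFn]
  rfl

/-! ### Correctness -/

variable {n : ℕ}

/-- The invariant of the loop. -/
def Inv (A : Fin n → Fin n → Prop) (k t : ℕ) (s : ℕ × List ℕ × Bool) : Prop :=
  s.1 = t ∧ ∃ c : Fin n → ℕ, s.2.1 = List.ofFn c ∧
    (s.2.2 = true → pot k t c ≤ t * (n * k ^ 2) ∧ ∃ y : Fin n → ℕ, ∑ j, y j = t ∧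
      ∀ (i : Fin n) (S : Finset (Fin n)), (∀ j, j ∈ S ↔ A j i) → c i = ∑ j ∈ S, y j) ∧
    (s.2.2 = false → ¬ ∃ D : Finset (Fin n), D.card ≤ k ∧ ∀ i, ∃ j ∈ D, A j i)

theorem inv_step {A : Fin n → Fin n → Prop} {b : Fin n → Fin n → Bool}
    (hb : ∀ j i, b j i = true ↔ A j i) (hn : 0 < n) {k : ℕ} (hk : 0 < k) {t : ℕ}
    {s : ℕ × List ℕ × Bool} (h : Inv A k t s) :
    Inv A k (t + 1) (step (List.ofFn fun j => List.ofFn (b j), k) s) := by
  classical
  obtain ⟨hs1, c, hc, htrue, hfalse⟩ := h
  obtain ⟨s1, s2, s3⟩ := s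
  dsimp only at hs1 hc htrue hfalse
  subst hs1 hc
  unfold step
  dsimp only
  rw [weights_ofFn]
  have hsum : (List.ofFn fun i => s1 - k * c i).sum = ∑ i, (s1 - k * c i) := List.sum_ofFn
  cases hcd : cands k (List.ofFn fun j => List.ofFn (b j)) (List.ofFn fun i => s1 - k * c i) with
  | nil =>
    refine ⟨rfl, c, rfl, fun h => absurd h (by simp), fun _ => ?_⟩
    rintro ⟨D, hDk, hD⟩
    refine reject_sound hn hb (fun i => s1 - k * c i) (fun j => ?_) D hDk hD
    have h1 : List.ofFn (b j) ∉ cands k (List.ofFn fun j => List.ofFn (b j))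
        (List.ofFn fun i => s1 - k * c i) := by rw [hcd]; simp
    unfold cands at h1
    rw [List.mem_filter] at h1
    push Not at h1
    have h2 := h1 (by rw [List.mem_ofFn]; exact ⟨j, rfl⟩)
    rw [hsum, score_ofFn] at h2
    simpa using h2
  | cons row rest =>
    have h1 : row ∈ cands k (List.ofFn fun j => List.ofFn (b j))
        (List.ofFn fun i => s1 - k * c i) := by rw [hcd]; simp
    unfold cands at h1
    rw [List.mem_filter, List.mem_ofFn] at h1
    obtain ⟨⟨j0, rfl⟩, h2⟩ := h1
    rw [hsum, score_ofFn, decide_eq_true_eq] at h2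
    dsimp only
    rw [bump_ofFn]
    refine ⟨rfl, _, rfl, ?_, hfalse⟩
    intro hs3
    obtain ⟨hpot, y, hy, hcy⟩ := htrue hs3
    refine ⟨?_, fun j => y j + if j = j0 then 1 else 0, ?_, ?_⟩
    · have := pot_step hk h2
      rw [Nat.succ_mul]
      omega
    · rw [Finset.sum_add_distrib, hy]
      simp
    · intro i S hS
      rw [Finset.sum_add_distrib, hcy i S hS, Finset.sum_ite_eq']
      congr 1
      by_cases h3 : A j0 i
      · rw [if_pos ((hS j0).2 h3), (hb j0 i).2 h3]
        rfl
      · rw [if_neg (fun h => h3 ((hS j0).1 h))]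
        have : b j0 i = false := by
          rw [← Bool.not_eq_true, hb]
          exact h3
        rw [this]
        rfl

theorem inv_loop {A : Fin n → Fin n → Prop} {b : Fin n → Fin n → Bool}
    (hb : ∀ j i, b j i = true ↔ A j i) (hn : 0 < n) {k : ℕ} (hk : 0 < k) (t : ℕ) :
    Inv A k t ((step (List.ofFn fun j => List.ofFn (b j), k))^[t] (0, List.replicate n 0, true)) := by
  induction t with
  | zero =>
    refine ⟨rfl, fun _ => 0, ?_, fun _ => ⟨?_, fun _ => 0, by simp, by simp⟩,
      fun h => absurd h (by simp)⟩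
    · simp
    · simp [pot]
  | succ t ih =>
    rw [Function.iterate_succ_apply']
    exact inv_step hb hn hk ih

/-- Correctness of the loop. -/
theorem loop_iff {A : Fin n → Fin n → Prop} (hA : OddFree fun i j => A j i)
    {b : Fin n → Fin n → Bool} (hb : ∀ j i, b j i = true ↔ A j i) {k : ℕ} (hk : 0 < k)
    (hkn : k < n) : (loop (List.ofFn fun j => List.ofFn (b j)) k).2.2 = true ↔
      ∃ D : Finset (Fin n), D.card ≤ k ∧ ∀ i, ∃ j ∈ D, A j i := by
  have hn : 0 < n := by omega
  have h := inv_loop hb hn hk ((n + 1) ^ 5)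
  unfold loop
  rw [List.length_ofFn]
  obtain ⟨_, c, _, htrue, hfalse⟩ := h
  constructor
  · intro hs
    obtain ⟨hpot, y, hy, hcy⟩ := htrue hs
    have hT : n * k ^ 2 * (k + 1) ^ 2 < (n + 1) ^ 5 := by
      have h1 : k ^ 2 ≤ n ^ 2 := Nat.pow_le_pow_left hkn.le 2
      have h2 : (k + 1) ^ 2 ≤ n ^ 2 := Nat.pow_le_pow_left hkn 2
      calc n * k ^ 2 * (k + 1) ^ 2 ≤ n * n ^ 2 * n ^ 2 :=
            Nat.mul_le_mul (Nat.mul_le_mul le_rfl h1) h2
        _ = n ^ 5 := by ring
        _ < (n + 1) ^ 5 := Nat.pow_lt_pow_left (by omega) (by omega)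
    have hlarge := count_large hT hpot
    obtain ⟨i0, -, hi0⟩ := Finset.exists_min_image (Finset.univ : Finset (Fin n)) c
      ⟨⟨0, hn⟩, Finset.mem_univ _⟩
    have hpos : 0 < c i0 := by
      have := hlarge i0
      rcases Nat.eq_zero_or_pos (c i0) with h0 | h0
      · rw [h0] at this; omega
      · exact h0
    obtain ⟨D, hD1, hD2⟩ := hA.exists_hitting y (c i0) hpos (fun i S hS => by
      rw [← hcy i S hS]
      exact hi0 i (Finset.mem_univ _))
    refine ⟨D, ?_, hD2⟩
    rw [hy] at hD1
    have h1 := lt_of_le_of_lt hD1 (hlarge i0)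
    rw [mul_comm] at h1
    have := Nat.lt_of_mul_lt_mul_left h1
    omega
  · intro hD
    by_contra hs
    rw [Bool.not_eq_true] at hs
    exact hfalse hs hD

/-- Correctness of the decision procedure on rows. -/
theorem decRows_iff {G : SimpleGraph (Fin n)} (hG : OddFree (Nb G)) {a : Fin n → Fin n → Bool}
    (ha : ∀ j i, a j i = true ↔ G.Adj j i) (k : ℕ) :
    decRows (List.ofFn fun j => List.ofFn (a j)) (min k n) = true ↔
      ∃ D : Finset (Fin n), D.card ≤ k ∧ ∀ v, v ∉ D → ∃ u ∈ D, G.Adj v u := by
  have hdom : ∀ D : Finset (Fin n), (∀ v, v ∉ D → ∃ u ∈ D, G.Adj v u) ↔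
      ∀ i, ∃ j ∈ D, Nb G i j := by
    intro D
    constructor
    · intro h i
      by_cases hi : i ∈ D
      · exact ⟨i, hi, Or.inl rfl⟩
      · obtain ⟨u, hu, hiu⟩ := h i hi
        exact ⟨u, hu, Or.inr hiu.symm⟩
    · intro h v hv
      obtain ⟨j, hj, h1 | h1⟩ := h v
      · subst h1; exact absurd hj hv
      · exact ⟨j, hj, h1.symm⟩
  simp only [hdom]
  unfold decRows
  rw [Bool.or_eq_true, Bool.and_eq_true, decide_eq_true_eq, decide_eq_true_eq, List.length_ofFn,
    closeRows_ofFn]
  rcases Nat.lt_or_ge k n with hkn | hkn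
  · rw [min_eq_left hkn.le]
    rcases Nat.eq_zero_or_pos k with rfl | hk
    · constructor
      · rintro (h | h) <;> omega
      · rintro ⟨D, hD1, hD2⟩
        have : D = ∅ := Finset.card_eq_zero.1 (by omega)
        subst this
        obtain ⟨j, hj, _⟩ := hD2 ⟨0, hkn⟩
        exact absurd hj (Finset.notMem_empty j)
    · rw [loop_iff (A := fun j i => Nb G i j) hG (fun j i => ?_) hk hkn]
      · constructor
        · rintro (h | h)
          · omega
          · exact h.2
        · intro h
          exact Or.inr ⟨hk, h⟩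
      · unfold Nb
        rw [Bool.or_eq_true, ha, decide_eq_true_eq, eq_comm, or_comm]
  · rw [min_eq_right hkn]
    constructor
    · intro _
      refine ⟨Finset.univ, by simpa using hkn, fun i => ⟨i, Finset.mem_univ i, Or.inl rfl⟩⟩
    · intro _
      exact Or.inl le_rfl

/-! ### Polynomial time -/

theorem poly_weights : PolyFn (fun p : (ℕ × ℕ) × List ℕ => weights p.1.1 p.1.2 p.2) :=
  PolyFn.map (f := fun (p : (ℕ × ℕ) × List ℕ) a => p.1.2 - p.1.1 * a)
    (PolyFn.sub (PolyFn.snd.comp (PolyFn.fst.comp PolyFn.fst))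
      (PolyFn.mul (PolyFn.fst.comp (PolyFn.fst.comp PolyFn.fst)) PolyFn.snd)) PolyFn.snd

theorem poly_score : PolyFn (fun p : List Bool × List ℕ => score p.1 p.2) :=
  PolyFn.sum (PolyFn.map (f := fun (_ : List Bool × List ℕ) (p : Bool × ℕ) =>
      if p.1 = true then p.2 else 0)
    (PolyFn.ite ((PolyFn.fst.comp PolyFn.snd).of_eq fun p => by simp)
      (PolyFn.snd.comp PolyFn.snd) (PolyFn.const 0)) (PolyFn.zip PolyFn.fst PolyFn.snd))

theorem poly_bump : PolyFn (fun p : List Bool × List ℕ => bump p.1 p.2) :=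
  PolyFn.map (f := fun (_ : List Bool × List ℕ) (p : Bool × ℕ) => p.2 + p.1.toNat)
    (PolyFn.add (PolyFn.snd.comp PolyFn.snd) (PolyFn.toNat (PolyFn.fst.comp PolyFn.snd)))
    (PolyFn.zip PolyFn.fst PolyFn.snd)

theorem poly_cands : PolyFn (fun p : ℕ × List (List Bool) × List ℕ => cands p.1 p.2.1 p.2.2) :=
  PolyFn.filter (p := fun (p : ℕ × List (List Bool) × List ℕ) row =>
      decide (p.2.2.sum ≤ p.1 * score row p.2.2))
    (PolyFn.decide_le (PolyFn.sum (PolyFn.snd.comp (PolyFn.snd.comp PolyFn.fst)))
      (PolyFn.mul (PolyFn.fst.comp PolyFn.fst)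
        (poly_score.comp (PolyFn.snd.pair (PolyFn.snd.comp (PolyFn.snd.comp PolyFn.fst))))))
    (PolyFn.fst.comp PolyFn.snd)

theorem poly_step : PolyFn (fun p : (List (List Bool) × ℕ) × (ℕ × List ℕ × Bool) =>
    step p.1 p.2) := by
  have h1 : PolyFn (fun p : (List (List Bool) × ℕ) × (ℕ × List ℕ × Bool) => p.1.1) :=
    PolyFn.fst.comp PolyFn.fst
  have h2 : PolyFn (fun p : (List (List Bool) × ℕ) × (ℕ × List ℕ × Bool) => p.1.2) :=
    PolyFn.snd.comp PolyFn.fst
  have h3 : PolyFn (fun p : (List (List Bool) × ℕ) × (ℕ × List ℕ × Bool) => p.2.1) :=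
    PolyFn.fst.comp PolyFn.snd
  have h4 : PolyFn (fun p : (List (List Bool) × ℕ) × (ℕ × List ℕ × Bool) => p.2.2.1) :=
    PolyFn.fst.comp (PolyFn.snd.comp PolyFn.snd)
  have h5 : PolyFn (fun p : (List (List Bool) × ℕ) × (ℕ × List ℕ × Bool) => p.2.2.2) :=
    PolyFn.snd.comp (PolyFn.snd.comp PolyFn.snd)
  have hw : PolyFn (fun p : (List (List Bool) × ℕ) × (ℕ × List ℕ × Bool) =>
      weights p.1.2 p.2.1 p.2.2.1) := poly_weights.comp ((h2.pair h3).pair h4)
  refine PolyFn.listCase
    (l := fun p : (List (List Bool) × ℕ) × (ℕ × List ℕ × Bool) =>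
      cands p.1.2 p.1.1 (weights p.1.2 p.2.1 p.2.2.1))
    (f := fun p => (p.2.1 + 1, p.2.2.1, false))
    (g := fun p row _ => (p.2.1 + 1, bump row p.2.2.1, p.2.2.2))
    (poly_cands.comp (h2.pair (h1.pair hw)))
    ((PolyFn.succ h3).pair (h4.pair (PolyFn.const false))) ?_ ?_ ?_
  · exact (PolyFn.succ (h3.comp PolyFn.fst)).pair ((poly_bump.comp
      ((PolyFn.fst.comp PolyFn.snd).pair (h4.comp PolyFn.fst))).pair (h5.comp PolyFn.fst))
  · intro p h
    unfold step
    rw [h]
  · intro p row rest h
    unfold step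
    rw [h]

theorem step_bound (q : List (List Bool) × ℕ) (n t : ℕ) :
    ((step q)^[t] (0, List.replicate n 0, true)).1 = t ∧
      ((step q)^[t] (0, List.replicate n 0, true)).2.1.length ≤ n ∧
      ∀ a ∈ ((step q)^[t] (0, List.replicate n 0, true)).2.1, a ≤ t := by
  induction t with
  | zero => simp
  | succ t ih =>
    rw [Function.iterate_succ_apply']
    obtain ⟨s, hs⟩ : ∃ s, s = (step q)^[t] (0, List.replicate n 0, true) := ⟨_, rfl⟩
    rw [← hs] at ih ⊢
    obtain ⟨h1, h2, h3⟩ := ih
    unfold step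
    cases cands q.2 q.1 (weights q.2 s.1 s.2.1) with
    | nil =>
      refine ⟨by simp [h1], h2, fun a ha => ?_⟩
      have := h3 a ha
      omega
    | cons row rest =>
      refine ⟨by simp [h1], ?_, fun a ha => ?_⟩
      · simp only [bump, List.length_map, List.length_zip]
        omega
      · simp only [bump, List.mem_map] at ha
        obtain ⟨p, hp, rfl⟩ := ha
        have h4 := h3 p.2 (List.of_mem_zip (a := p.1) (b := p.2) hp).2
        have h5 : p.1.toNat ≤ 1 := Bool.toNat_le p.1
        omega

theorem poly_loop : PolyFn (fun p : List (List Bool) × ℕ => loop p.1 p.2) := by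
  refine PolyFn.iterate (γ := List (List Bool) × ℕ) (step := step)
    (init := fun p => (0, List.replicate p.1.length 0, true))
    (cnt := fun p => (p.1.length + 1) ^ 5) poly_step ?_ ?_ ?_
  · exact (PolyFn.const 0).pair ((PolyFn.replicate (PolyFn.length PolyFn.fst) (PolyFn.const 0)).pair
      (PolyFn.const true))
  · exact PolyFn.pow (PolyFn.succ (PolyFn.length PolyFn.fst)) 5
  · refine ⟨fun m => (2 * (m + 1) ^ 5 + 1) + (m * (2 * (m + 1) ^ 5 + 1 + 1) + 1 + 3 + 1) + 1, ?_, ?_⟩
    · have h1 : PB fun m => (m + 1) ^ 5 := (PB.id.add (PB.const 1)).pow 5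
      have h2 : PB fun m => 2 * (m + 1) ^ 5 + 1 := ((PB.const 2).mul h1).add (PB.const 1)
      exact (h2.add ((((PB.id.mul (h2.add (PB.const 1))).add (PB.const 1)).add
        (PB.const 3)).add (PB.const 1))).add (PB.const 1)
    · intro c i hi
      obtain ⟨h1, h2, h3⟩ := step_bound c c.1.length i
      obtain ⟨s, hs⟩ : ∃ s, s = (step c)^[i] (0, List.replicate c.1.length 0, true) := ⟨_, rfl⟩
      rw [← hs] at h1 h2 h3 ⊢
      have hlen : c.1.length ≤ size c := by
        have := length_le_size c.1
        have h5 : size c = size c.1 + size c.2 + 1 := size_prod c.1 c.2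
        omega
      have hi' : i ≤ (size c + 1) ^ 5 := hi.trans (Nat.pow_le_pow_left (by omega) 5)
      have h6 : size s.2.1 ≤ s.2.1.length * (2 * (size c + 1) ^ 5 + 1 + 1) + 1 := by
        apply size_list_le
        intro a ha
        rw [size_nat]
        have := h3 a ha
        omega
      have h7 : s.2.1.length * (2 * (size c + 1) ^ 5 + 1 + 1) ≤
          size c * (2 * (size c + 1) ^ 5 + 1 + 1) := Nat.mul_le_mul_right _ (h2.trans hlen)
      have h8 := size_bool s.2.2
      have h9 : size s = size s.1 + (size s.2.1 + size s.2.2 + 1) + 1 := by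
        rw [← size_prod, ← size_prod]
      rw [h9, h1, size_nat]
      dsimp only
      omega

theorem poly_down : PolyFn down := by
  refine PolyFn.iterate (γ := ℕ) (step := fun _ l => l.length :: l) (init := fun _ => [])
    (cnt := fun n => n) (PolyFn.cons (PolyFn.length PolyFn.snd) PolyFn.snd) (PolyFn.const []) PolyFn.id
    ⟨fun m => m * (2 * m + 1 + 1) + 1,
      (PB.id.mul ((((PB.const 2).mul PB.id).add (PB.const 1)).add (PB.const 1))).add (PB.const 1), ?_⟩
  intro c i hi
  have h1 : (fun l : List ℕ => l.length :: l)^[i] [] = (List.range i).reverse := down_eq i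
  rw [h1]
  have h2 : size (List.range i).reverse ≤ (List.range i).reverse.length * (2 * i + 1 + 1) + 1 := by
    apply size_list_le
    intro a ha
    rw [List.mem_reverse, List.mem_range] at ha
    rw [size_nat]
    omega
  rw [List.length_reverse, List.length_range] at h2
  have h3 : i ≤ size c := by rw [size_nat]; omega
  nlinarith

theorem poly_closeRows : PolyFn closeRows := by
  have hr : PolyFn (fun rows : List (List Bool) => (down rows.length).reverse) :=
    PolyFn.reverse (poly_down.comp (PolyFn.length PolyFn.id))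
  refine PolyFn.map (γ := List (List Bool))
    (f := fun rows (p : ℕ × List Bool) => ((down rows.length).reverse.zip p.2).map
      fun q => q.2 || decide (q.1 = p.1)) ?_ (PolyFn.zip hr PolyFn.id)
  refine PolyFn.map (γ := List (List Bool) × (ℕ × List Bool))
    (f := fun c (q : ℕ × Bool) => q.2 || decide (q.1 = c.2.1)) ?_
    (PolyFn.zip (hr.comp PolyFn.fst) (PolyFn.snd.comp PolyFn.snd))
  exact PolyFn.or (PolyFn.snd.comp PolyFn.snd) (PolyFn.decide_eq_nat (PolyFn.fst.comp PolyFn.snd)
    (PolyFn.fst.comp (PolyFn.snd.comp PolyFn.fst)))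

theorem poly_decRows : PolyFn (fun p : List (List Bool) × ℕ => decRows p.1 p.2) :=
  PolyFn.or (PolyFn.decide_le (PolyFn.length PolyFn.fst) PolyFn.snd)
    (PolyFn.and (PolyFn.decide_le (PolyFn.const 1) PolyFn.snd)
      (PolyFn.snd.comp (PolyFn.snd.comp (poly_loop.comp
        ((poly_closeRows.comp PolyFn.fst).pair PolyFn.snd)))))

theorem poly_decW : PolyFn decW := by
  refine PolyFn.listCase (l := fun bs : List (List Bool) => bs) (f := fun _ => false)
    (g := fun _ kb rs => decRows rs.reverse (capVal rs.length kb))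
    PolyFn.id (PolyFn.const false) ?_ (fun c h => by rw [h]; rfl) (fun c a t h => by rw [h]; rfl)
  have h1 : PolyFn (fun p : List (List Bool) × List Bool × List (List Bool) => p.2.2) :=
    PolyFn.snd.comp PolyFn.snd
  exact poly_decRows.comp ((PolyFn.reverse h1).pair (PolyFn.capVal (PolyFn.length h1)
    (PolyFn.fst.comp PolyFn.snd)))

/-! ### The encoding -/

/-- The word of a matrix and a number. -/
def encodeMat (rows : List (List Bool)) (k : ℕ) : List (Option Bool) :=
  (rows.flatMap fun row => row.map some ++ [none]) ++ k.bits.map some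

theorem blocks_encodeMat (rows : List (List Bool)) (k : ℕ) :
    blocks (encodeMat rows k) = rows ++ [k.bits] := by
  unfold encodeMat
  induction rows with
  | nil => simp [blocks_some]
  | cons n ns ih =>
    rw [List.flatMap_cons, List.append_assoc, List.append_assoc, List.singleton_append, blocks_cons,
      ih]
    rfl

theorem decW_encodeMat (rows : List (List Bool)) (k : ℕ) :
    decW (blocks (encodeMat rows k)).reverse = decRows rows (min k rows.length) := by
  rw [blocks_encodeMat, List.reverse_append, List.reverse_singleton, List.singleton_append]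
  unfold decW
  simp only [List.reverse_reverse, List.length_reverse, capVal_bits]

end Pool.Agent.BalChord
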