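import Pool.Agent.Lib.MP_1e64e3_lc.Clique

/-!
# Bicolourings and good colourings of balanced incidence relations
-/

namespace Pool.Agent.BalChord

open SimpleGraph

variable {ι W : Type*}

/-- The relation `A` has no odd special cycle: no submatrix is the incidence matrix of an odd
cycle. -/
def OddFree (A : ι → W → Prop) : Prop :=
  ∀ m : ℕ, Odd m → 3 ≤ m → ∀ (x : ZMod m → W) (y : ZMod m → ι),
    ¬ ∀ i j, A (y j) (x i) ↔ (j = i ∨ j = i + 1)

theorem zmod_val_succ {n : ℕ} (hn : 3 ≤ n) (i : ZMod n) :
    (i + 1).val = if i.val + 1 = n then 0 else i.val + 1 := by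
  have : NeZero n := ⟨by omega⟩
  have : Fact (1 < n) := ⟨by omega⟩
  have hlt := ZMod.val_lt i
  rw [ZMod.val_add, ZMod.val_one]
  split_ifs with h
  · rw [h, Nat.mod_self]
  · rw [Nat.mod_eq_of_lt (by omega)]

/-- The pairs of elements of `S` cut out by members of `A`. -/
def pairGraph (A : ι → W → Prop) (S : Set W) : SimpleGraph W where
  Adj a b := a ≠ b ∧ a ∈ S ∧ b ∈ S ∧ ∃ e, ∀ w ∈ S, A e w ↔ (w = a ∨ w = b)
  symm := ⟨by
    rintro a b ⟨h1, h2, h3, e, he⟩
    exact ⟨h1.symm, h3, h2, e, fun w hw => by rw [he w hw]; exact or_comm⟩⟩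
  loopless := ⟨fun a h => h.1 rfl⟩

/-- The pair graph has no odd cycle. -/
theorem OddFree.no_odd_cycle {A : ι → W → Prop} (hA : OddFree A) (S : Set W) (p : ℕ → W) (n : ℕ)
    (hn : 3 ≤ n) (hodd : Odd n) (hinj : ∀ i < n, ∀ j < n, p i = p j → i = j)
    (hadj : ∀ i, i + 1 < n → (pairGraph A S).Adj (p i) (p (i + 1)))
    (hlast : (pairGraph A S).Adj (p (n - 1)) (p 0)) : False := by
  have : NeZero n := ⟨by omega⟩
  -- the member for the pair `p i, p (i+1)`
  have hex : ∀ i : ZMod n, ∃ e, ∀ w ∈ S, A e w ↔ (w = p i.val ∨ w = p (i + 1).val) := by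
    intro i
    have hlt := ZMod.val_lt i
    rw [zmod_val_succ hn]
    split_ifs with h
    · have := hlast.2.2.2
      rwa [show n - 1 = i.val by omega] at this
    · exact (hadj i.val (by omega)).2.2.2
  have hS : ∀ i : ZMod n, p i.val ∈ S := by
    intro i
    have hlt := ZMod.val_lt i
    rcases Nat.lt_or_ge (i.val + 1) n with h | h
    · exact (hadj i.val h).2.1
    · have := hlast.2.1
      rwa [show n - 1 = i.val by omega] at this
  choose y hy using hex
  refine hA n hodd hn (fun i => p i.val) (fun j => y (j - 1)) ?_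
  intro i j
  rw [hy (j - 1) _ (hS i), sub_add_cancel]
  have hval : ∀ a b : ZMod n, p a.val = p b.val ↔ a = b := by
    intro a b
    constructor
    · intro h
      exact ZMod.val_injective n (hinj _ (ZMod.val_lt a) _ (ZMod.val_lt b) h)
    · rintro rfl; rfl
  rw [hval, hval]
  constructor
  · rintro (h | h)
    · right; rw [h]; ring
    · left; exact h.symm
  · rintro (h | h)
    · right; exact h.symm
    · left; rw [h]; ring

/-- A vertex of `S` whose neighbours are pairwise joined avoiding the vertex. -/
theorem exists_noncut (H : SimpleGraph W) (S : Finset W) (hS : S.Nonempty)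
    (hsub : ∀ a b, H.Adj a b → a ∈ S ∧ b ∈ S) :
    ∃ v ∈ S, ∀ a b, H.Adj v a → H.Adj v b → ∃ (z : ℕ → W) (n : ℕ), z 0 = a ∧ z n = b ∧
      (∀ i ≤ n, z i ∈ S ∧ z i ≠ v) ∧ ∀ i < n, z i = z (i + 1) ∨ H.Adj (z i) (z (i + 1)) := by
  classical
  obtain ⟨s0, hs0⟩ := hS
  -- a vertex at maximal distance
  obtain ⟨v, hv, hmax⟩ := Finset.exists_max_image (S.filter fun w => H.Reachable s0 w)
    (fun w => H.dist s0 w) ⟨s0, by simp [hs0]⟩
  simp only [Finset.mem_filter] at hv hmax
  refine ⟨v, hv.1, ?_⟩
  -- every neighbour of `v` is joined to `s0`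
  have key : ∀ a, H.Adj v a → ∃ (z : ℕ → W) (n : ℕ), z 0 = s0 ∧ z n = a ∧
      (∀ i ≤ n, z i ∈ S ∧ z i ≠ v) ∧ ∀ i < n, z i = z (i + 1) ∨ H.Adj (z i) (z (i + 1)) := by
    intro a ha
    have haS := (hsub _ _ ha).2
    have hra : H.Reachable s0 a := hv.2.trans ha.reachable
    have hda := hmax a ⟨haS, hra⟩
    obtain ⟨w, hw⟩ := hra.exists_walk_length_eq_dist
    refine ⟨w.getVert, w.length, by simp, by simp, ?_, ?_⟩
    · intro i hi
      constructor
      · rcases Nat.eq_zero_or_pos i with h | h
        · subst h; simpa using hs0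
        · have := w.adj_getVert_succ (i := i - 1) (by omega)
          rw [show i - 1 + 1 = i by omega] at this
          exact (hsub _ _ this).2
      · intro hiv
        have h1 : H.dist s0 v ≤ i := by
          rw [← hiv]
          have := SimpleGraph.dist_le (w.take i)
          rw [SimpleGraph.Walk.take_length] at this
          omega
        have h2 : i = w.length := by
          rw [hw] at hi ⊢
          omega
        rw [h2, SimpleGraph.Walk.getVert_length] at hiv
        exact ha.ne hiv.symm
    · intro i hi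
      exact Or.inr (w.adj_getVert_succ hi)
  intro a b ha hb
  obtain ⟨z1, n1, h10, h1n, h1m, h1a⟩ := key a ha
  obtain ⟨z2, n2, h20, h2n, h2m, h2a⟩ := key b hb
  refine ⟨fun i => if i ≤ n1 then z1 (n1 - i) else z2 (i - n1), n1 + n2, ?_, ?_, ?_, ?_⟩
  · simp [h1n]
  · by_cases h : n2 = 0
    · subst h
      simp [h10, ← h20, h2n]
    · simp [h, h2n]
  · intro i hi
    dsimp only
    split_ifs with h
    · exact h1m _ (by omega)
    · exact h2m _ (by omega)
  · intro i hi
    dsimp only
    rcases Nat.lt_trichotomy i n1 with h | h | h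
    · rw [if_pos (by omega), if_pos (by omega)]
      have := h1a (n1 - (i + 1)) (by omega)
      rw [show n1 - (i + 1) + 1 = n1 - i by omega] at this
      rcases this with h' | h'
      · exact Or.inl h'.symm
      · exact Or.inr h'.symm
    · subst h
      rw [if_pos le_rfl, if_neg (by omega), Nat.sub_self, h10, ← h20,
        show i + 1 - i = 0 + 1 by omega]
      exact h2a 0 (by omega)
    · rw [if_neg (by omega), if_neg (by omega), show i + 1 - n1 = (i - n1) + 1 by omega]
      exact h2a _ (by omega)

/-- Every set can be bicoloured. -/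
theorem OddFree.bicolour {A : ι → W → Prop} (hA : OddFree A) (S : Finset W) :
    ∃ c : W → Bool, ∀ e, (∃ a ∈ S, ∃ b ∈ S, a ≠ b ∧ A e a ∧ A e b) →
      ∀ t : Bool, ∃ a ∈ S, A e a ∧ c a = t := by
  classical
  induction S using Finset.strongInduction with
  | H S ih =>
    rcases S.eq_empty_or_nonempty with rfl | hne
    · exact ⟨fun _ => true, fun e ⟨a, ha, _⟩ => absurd ha (Finset.notMem_empty a)⟩
    obtain ⟨v, hv, hcon⟩ := exists_noncut (pairGraph A (S : Set W)) S hne
      (fun a b h => ⟨h.2.1, h.2.2.1⟩)
    obtain ⟨c, hc⟩ := ih (S.erase v) (Finset.erase_ssubset hv)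
    -- adjacent vertices different from `v` have different colours
    have hdiff : ∀ a b, a ≠ v → b ≠ v → (pairGraph A (S : Set W)).Adj a b → c a ≠ c b := by
      rintro a b hav hbv ⟨hab, haS, hbS, e, he⟩ hcab
      obtain ⟨a', ha', haA, hac⟩ := hc e ⟨a, Finset.mem_erase.2 ⟨hav, haS⟩, b,
        Finset.mem_erase.2 ⟨hbv, hbS⟩, hab, (he a haS).2 (Or.inl rfl), (he b hbS).2 (Or.inr rfl)⟩
        (!(c a))
      rw [Finset.mem_erase] at ha'
      rcases (he a' ha'.2).1 haA with h | h
      · rw [h] at hac
        cases hca : c a <;> simp [hca] at hac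
      · rw [h, ← hcab] at hac
        cases hca : c a <;> simp [hca] at hac
    -- all neighbours of `v` have the same colour
    have hsame : ∀ a b, (pairGraph A (S : Set W)).Adj v a → (pairGraph A (S : Set W)).Adj v b →
        c a = c b := by
      intro a b ha hb
      by_contra hab
      obtain ⟨z, n, hz0, hzn, hzm, hza⟩ := hcon a b ha hb
      obtain ⟨q, s, hq0, hqs, hqR, hq⟩ := exists_indPath (pairGraph A (S : Set W))
        {w | w ∈ S ∧ w ≠ v} z n hzm hza
      rw [hz0] at hq0
      rw [hzn] at hqs
      have hcol : ∀ i ≤ s, c (q i) = if i % 2 = 0 then c a else !(c a) := by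
        intro i
        induction i with
        | zero => intro _; simp [hq0]
        | succ i ih' =>
          intro hi
          have h1 := ih' (by omega)
          have h2 := hdiff (q i) (q (i + 1)) (hqR i (by omega)).2 (hqR (i + 1) hi).2
            ((hq.2 i (by omega) (i + 1) hi).2 (Or.inr rfl))
          rw [h1] at h2
          rcases Nat.mod_two_eq_zero_or_one i with h3 | h3
          · rw [if_pos h3] at h2
            rw [if_neg (by omega)]
            cases h4 : c a <;> cases h5 : c (q (i + 1)) <;> simp_all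
          · rw [if_neg (by omega)] at h2
            rw [if_pos (by omega)]
            cases h4 : c a <;> cases h5 : c (q (i + 1)) <;> simp_all
      have hsodd : s % 2 = 1 := by
        have := hcol s le_rfl
        rw [hqs] at this
        by_contra h
        rw [if_pos (by omega)] at this
        exact hab this.symm
      refine hA.no_odd_cycle (S : Set W) (fun i => if i = 0 then v else q (i - 1)) (s + 2)
        (by omega) (by rw [Nat.odd_iff]; omega) ?_ ?_ ?_
      · intro i hi j hj h
        split_ifs at h with h1 h2 h2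
        · omega
        · exact absurd h.symm (hqR (j - 1) (by omega)).2
        · exact absurd h (hqR (i - 1) (by omega)).2
        · have := hq.1 (i - 1) (by omega) (j - 1) (by omega) h
          omega
      · intro i hi
        rw [if_neg (show ¬ (i + 1 = 0) by omega), Nat.add_sub_cancel]
        split_ifs with h1
        · subst h1
          rw [hq0]
          exact ha
        · exact (hq.2 (i - 1) (by omega) i (by omega)).2 (Or.inr (by omega))
      · rw [if_neg (by omega), if_pos rfl, show s + 2 - 1 - 1 = s by omega, hqs]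
        exact hb.symm
    -- the colour of `v`
    obtain ⟨t0, ht0⟩ : ∃ t0 : Bool, ∀ a, (pairGraph A (S : Set W)).Adj v a → c a ≠ t0 := by
      by_cases h : ∃ a, (pairGraph A (S : Set W)).Adj v a
      · obtain ⟨a, ha⟩ := h
        refine ⟨!(c a), fun b hb => ?_⟩
        rw [← hsame a b ha hb]
        cases c a <;> simp
      · push Not at h
        exact ⟨true, fun a ha => absurd ha (h a)⟩
    refine ⟨fun w => if w = v then t0 else c w, ?_⟩
    rintro e ⟨a, ha, b, hb, hab, hea, heb⟩ t
    by_cases h2 : ∃ a ∈ S.erase v, ∃ b ∈ S.erase v, a ≠ b ∧ A e a ∧ A e b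
    · obtain ⟨w, hw, hew, hcw⟩ := hc e h2 t
      rw [Finset.mem_erase] at hw
      exact ⟨w, hw.2, hew, by simp [hw.1, hcw]⟩
    · push Not at h2
      -- exactly one element of the pair is `v`
      obtain ⟨u, huS, huv, hvA, huA⟩ : ∃ u ∈ S, u ≠ v ∧ A e v ∧ A e u := by
        by_cases h3 : a = v
        · subst h3
          exact ⟨b, hb, hab.symm, hea, heb⟩
        · by_cases h4 : b = v
          · subst h4
            exact ⟨a, ha, hab, heb, hea⟩
          · exact absurd heb (h2 a (Finset.mem_erase.2 ⟨h3, ha⟩) b (Finset.mem_erase.2 ⟨h4, hb⟩)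
              hab hea)
      have hadj : (pairGraph A (S : Set W)).Adj v u := by
        refine ⟨huv.symm, hv, huS, e, fun w hw => ⟨fun hew => ?_, ?_⟩⟩
        · by_contra hcon
          push Not at hcon
          exact h2 w (Finset.mem_erase.2 ⟨hcon.1, hw⟩) u (Finset.mem_erase.2 ⟨huv, huS⟩) hcon.2
            hew huA
        · rintro (rfl | rfl)
          · exact hvA
          · exact huA
      have h5 := ht0 u hadj
      by_cases h6 : t = t0
      · exact ⟨v, hv, hvA, by simp [h6]⟩
      · refine ⟨u, huS, huA, ?_⟩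
        show (if u = v then t0 else c u) = t
        rw [if_neg huv]
        cases t <;> cases t0 <;> cases h7 : c u <;> simp_all

end Pool.Agent.BalChord
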