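import Mathlib

/-!
# Chordal graphs: geodesics and common neighbours
-/

namespace Pool.Agent.BalChord

open SimpleGraph

variable {V : Type*}

/-- A graph is chordal if it has no induced cycle of length at least four. -/
def Chordal (G : SimpleGraph V) : Prop := ∀ n : ℕ, 4 ≤ n → IsEmpty (cycleGraph n ↪g G)

theorem cycleGraph_adj_val {n : ℕ} (hn : 3 ≤ n) (u v : Fin n) :
    (cycleGraph n).Adj u v ↔ (u.val = v.val + 1 ∨ v.val = u.val + 1 ∨
      (u.val = 0 ∧ v.val + 1 = n) ∨ (v.val = 0 ∧ u.val + 1 = n)) := by
  have key : ∀ u v : Fin n, (u - v).val = 1 ↔ (u.val = v.val + 1 ∨ (u.val = 0 ∧ v.val + 1 = n)) := by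
    intro u v
    have hu := u.isLt
    have hv := v.isLt
    rw [Fin.sub_def]
    simp only
    rcases le_or_gt v.val u.val with h | h
    · rw [show n - v.val + u.val = (u.val - v.val) + n by omega, Nat.add_mod_right,
        Nat.mod_eq_of_lt (by omega)]
      omega
    · rw [Nat.mod_eq_of_lt (by omega)]
      omega
  rw [cycleGraph_adj', key, key]
  tauto

/-- An induced path, given as a sequence. -/
def IndPath (G : SimpleGraph V) (q : ℕ → V) (s : ℕ) : Prop :=
  (∀ i ≤ s, ∀ j ≤ s, q i = q j → i = j) ∧
    ∀ i ≤ s, ∀ j ≤ s, (G.Adj (q i) (q j) ↔ (i = j + 1 ∨ j = i + 1))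

/-- In a chordal graph a vertex adjacent to both ends of an induced path is adjacent to all its
vertices. -/
theorem Chordal.adj_path {G : SimpleGraph V} (hG : Chordal G) {q : ℕ → V} {s : ℕ}
    (hq : IndPath G q s) {p : V} (hpq : ∀ i ≤ s, p ≠ q i) (h0 : G.Adj p (q 0))
    (hs : G.Adj p (q s)) : ∀ i ≤ s, G.Adj p (q i) := by
  by_contra hcon
  push Not at hcon
  obtain ⟨i, his, hi⟩ := hcon
  classical
  -- the last neighbour before `i`
  obtain ⟨a, ha, hamax⟩ : ∃ a, (a < i ∧ G.Adj p (q a)) ∧ ∀ b, a < b → b < i → ¬ G.Adj p (q b) := by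
    have h0i : 0 < i := by
      rcases Nat.eq_zero_or_pos i with h | h
      · subst h; exact absurd h0 hi
      · exact h
    have hne : ((Finset.range i).filter fun a => G.Adj p (q a)).Nonempty :=
      ⟨0, by simp [h0i, h0]⟩
    obtain ⟨a, ha, hmax⟩ := Finset.exists_max_image _ (fun a => a) hne
    simp only [Finset.mem_filter, Finset.mem_range] at ha hmax
    exact ⟨a, ha, fun b hb hbi hadj => absurd (hmax b ⟨hbi, hadj⟩) (by omega)⟩
  -- the first neighbour after `i`
  obtain ⟨b, hb, hbmin⟩ : ∃ b, (i < b ∧ b ≤ s ∧ G.Adj p (q b)) ∧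
      ∀ c, i < c → c < b → ¬ G.Adj p (q c) := by
    have his' : i < s := by
      rcases Nat.lt_or_ge i s with h | h
      · exact h
      · have : i = s := by omega
        subst this; exact absurd hs hi
    have hex : ∃ b, i < b ∧ b ≤ s ∧ G.Adj p (q b) := ⟨s, his', le_rfl, hs⟩
    refine ⟨Nat.find hex, Nat.find_spec hex, fun c hc hcb hadj => ?_⟩
    have := Nat.find_spec hex
    exact Nat.find_min hex hcb ⟨hc, by omega, hadj⟩
  have hnadj : ∀ c, a < c → c < b → ¬ G.Adj p (q c) := by
    intro c hac hcb
    rcases lt_trichotomy c i with h | h | h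
    · exact hamax c hac h
    · subst h; exact hi
    · exact hbmin c h hcb
  obtain ⟨φ, hφ⟩ : ∃ φ : Fin (b - a + 2) → V, ∀ t, φ t = if t.val = 0 then p else q (a + t.val - 1) :=
    ⟨_, fun _ => rfl⟩
  have hinj : Function.Injective φ := by
    intro t t' h
    have ht := t.isLt
    have ht' := t'.isLt
    rw [hφ, hφ] at h
    apply Fin.ext
    by_cases h1 : t.val = 0 <;> by_cases h2 : t'.val = 0
    · omega
    · rw [if_pos h1, if_neg h2] at h
      exact absurd h (hpq _ (by omega))
    · rw [if_neg h1, if_pos h2] at h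
      exact absurd h.symm (hpq _ (by omega))
    · rw [if_neg h1, if_neg h2] at h
      have := hq.1 _ (by omega) _ (by omega) h
      omega
  refine (hG (b - a + 2) (by omega)).false ⟨⟨φ, hinj⟩, ?_⟩
  intro t t'
  have ht := t.isLt
  have ht' := t'.isLt
  rw [cycleGraph_adj_val (by omega)]
  simp only [Function.Embedding.coeFn_mk]
  rw [hφ, hφ]
  by_cases h1 : t.val = 0 <;> by_cases h2 : t'.val = 0
  · rw [if_pos h1, if_pos h2]
    constructor
    · intro h; exact absurd h (G.irrefl)
    · intro h; omega
  · rw [if_pos h1, if_neg h2]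
    constructor
    · intro h
      by_contra hc
      exact hnadj (a + t'.val - 1) (by omega) (by omega) h
    · intro h
      rcases (by omega : t'.val = 1 ∨ t'.val = b - a + 1) with h3 | h3
      · rw [h3, show a + 1 - 1 = a by omega]; exact ha.2
      · rw [h3, show a + (b - a + 1) - 1 = b by omega]; exact hb.2.2
  · rw [if_neg h1, if_pos h2]
    constructor
    · intro h
      by_contra hc
      exact hnadj (a + t.val - 1) (by omega) (by omega) h.symm
    · intro h
      rcases (by omega : t.val = 1 ∨ t.val = b - a + 1) with h3 | h3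
      · rw [h3, show a + 1 - 1 = a by omega]; exact ha.2.symm
      · rw [h3, show a + (b - a + 1) - 1 = b by omega]; exact hb.2.2.symm
  · rw [if_neg h1, if_neg h2, hq.2 _ (by omega) _ (by omega)]
    omega

/-- Any sequence in which consecutive terms are equal or adjacent can be shortened to an induced
path with the same ends inside the same set. -/
theorem exists_indPath (G : SimpleGraph V) (R : Set V) (z : ℕ → V) (n : ℕ)
    (hR : ∀ i ≤ n, z i ∈ R) (hz : ∀ i < n, z i = z (i + 1) ∨ G.Adj (z i) (z (i + 1))) :
    ∃ (q : ℕ → V) (s : ℕ), q 0 = z 0 ∧ q s = z n ∧ (∀ i ≤ s, q i ∈ R) ∧ IndPath G q s := by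
  classical
  have hex : ∃ s, ∃ q : ℕ → V, q 0 = z 0 ∧ q s = z n ∧ (∀ i ≤ s, q i ∈ R) ∧
      ∀ i < s, q i = q (i + 1) ∨ G.Adj (q i) (q (i + 1)) := ⟨n, z, rfl, rfl, hR, hz⟩
  obtain ⟨s, hsdef⟩ : ∃ s, s = Nat.find hex := ⟨_, rfl⟩
  obtain ⟨q, hq0, hqs, hqR, hq⟩ := Nat.find_spec hex
  rw [← hsdef] at hqs hqR hq
  have hmin : ∀ s' < s, ¬ ∃ q : ℕ → V, q 0 = z 0 ∧ q s' = z n ∧ (∀ i ≤ s', q i ∈ R) ∧
      ∀ i < s', q i = q (i + 1) ∨ G.Adj (q i) (q (i + 1)) := by
    intro s' hs'
    exact Nat.find_min hex (by rw [← hsdef]; exact hs')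
  -- shortcuts
  have hcut : ∀ i j, i < j → j ≤ s → (q i = q j ∨ (G.Adj (q i) (q j) ∧ i + 1 < j)) → False := by
    intro i j hij hjs hor
    rcases hor with h | ⟨h, hij'⟩
    · refine hmin (s - (j - i)) (by omega) ⟨fun t => if t ≤ i then q t else q (t + (j - i)),
        by simp [hq0], ?_, ?_, ?_⟩
      · by_cases h1 : s - (j - i) ≤ i
        · have : s - (j - i) = i := by omega
          simp only [this, le_refl, if_true]
          rw [h, ← hqs]
          congr 1; omega
        · simp only [h1, if_false]
          rw [← hqs]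
          congr 1; omega
      · intro t ht
        simp only
        split_ifs
        · exact hqR _ (by omega)
        · exact hqR _ (by omega)
      · intro t ht
        simp only
        by_cases h1 : t + 1 ≤ i
        · rw [if_pos (by omega), if_pos h1]
          exact hq t (by omega)
        · rw [if_neg h1]
          by_cases h2 : t ≤ i
          · have : t = i := by omega
            subst this
            rw [if_pos le_rfl, h, show t + 1 + (j - t) = j + 1 by omega]
            exact hq j (by omega)
          · rw [if_neg h2, show t + 1 + (j - i) = (t + (j - i)) + 1 by omega]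
            exact hq _ (by omega)
    · refine hmin (s - (j - i - 1)) (by omega)
        ⟨fun t => if t ≤ i then q t else q (t + (j - i - 1)), by simp [hq0], ?_, ?_, ?_⟩
      · simp only [show ¬ (s - (j - i - 1) ≤ i) by omega, if_false]
        rw [← hqs]
        congr 1; omega
      · intro t ht
        simp only
        split_ifs
        · exact hqR _ (by omega)
        · exact hqR _ (by omega)
      · intro t ht
        simp only
        by_cases h1 : t + 1 ≤ i
        · rw [if_pos (by omega), if_pos h1]
          exact hq t (by omega)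
        · rw [if_neg h1]
          by_cases h2 : t ≤ i
          · have : t = i := by omega
            subst this
            rw [if_pos le_rfl, show t + 1 + (j - t - 1) = j by omega]
            exact Or.inr h
          · rw [if_neg h2, show t + 1 + (j - i - 1) = (t + (j - i - 1)) + 1 by omega]
            exact hq _ (by omega)
  refine ⟨q, s, hq0, hqs, hqR, ?_, ?_⟩
  · intro i hi j hj h
    rcases lt_trichotomy i j with h1 | h1 | h1
    · exact (hcut i j h1 hj (Or.inl h)).elim
    · exact h1
    · exact (hcut j i h1 hi (Or.inl h.symm)).elim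
  · intro i hi j hj
    constructor
    · intro h
      rcases lt_trichotomy i j with h1 | h1 | h1
      · by_contra hc
        exact hcut i j h1 hj (Or.inr ⟨h, by omega⟩)
      · subst h1; exact absurd h G.irrefl
      · by_contra hc
        exact hcut j i h1 hi (Or.inr ⟨h.symm, by omega⟩)
    · rintro (h | h)
      · subst h
        rcases hq j (by omega) with h1 | h1
        · exact (hcut j (j + 1) (by omega) hi (Or.inl h1)).elim
        · exact h1.symm
      · subst h
        rcases hq i (by omega) with h1 | h1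
        · exact (hcut i (i + 1) (by omega) hj (Or.inl h1)).elim
        · exact h1

/-- Common neighbours: the key consequence of chordality. -/
theorem Chordal.exists_common {G : SimpleGraph V} (hG : Chordal G) {R : Set V} {z : ℕ → V} {n : ℕ}
    (hR : ∀ i ≤ n, z i ∈ R) (hz : ∀ i < n, z i = z (i + 1) ∨ G.Adj (z i) (z (i + 1)))
    (hne : z 0 ≠ z n) (_hnadj : ¬ G.Adj (z 0) (z n)) :
    ∃ w ∈ R, G.Adj (z 0) w ∧ ∀ p ∉ R, G.Adj p (z 0) → G.Adj p (z n) → G.Adj p w := by
  obtain ⟨q, s, hq0, hqs, hqR, hq⟩ := exists_indPath G R z n hR hz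
  have hs0 : s ≠ 0 := by
    rintro rfl
    exact hne (hq0.symm.trans hqs)
  refine ⟨q 1, hqR 1 (by omega), ?_, ?_⟩
  · rw [← hq0]
    exact (hq.2 0 (by omega) 1 (by omega)).2 (Or.inr rfl)
  · intro p hp h0 hn
    refine hG.adj_path hq (fun i hi h => hp (by rw [h]; exact hqR i hi)) ?_ ?_ 1 (by omega)
    · rw [hq0]; exact h0
    · rw [hqs]; exact hn

end Pool.Agent.BalChord
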