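import Pool.Agent.Lib.MP_1e64e3_lc.Special

/-!
# Balanced chordal graphs have balanced closed neighbourhoods
-/

namespace Pool.Agent.BalChord

open SimpleGraph

variable {V : Type*}

/-- A family `E` of sets (the edges of a hypergraph) is balanced if every cycle
`x₁, e₁, x₂, e₂, …, xₘ, eₘ, x₁` of odd length `m` (distinct vertices, distinct edges,
`xᵢ, xᵢ₊₁ ∈ eᵢ`, indices modulo `m`) has an edge `eᵢ` that contains at least three of the vertices
`x₁, …, xₘ`. -/
def IsBalanced (E : Set (Set V)) : Prop :=
  ∀ m : ℕ, Odd m → 3 ≤ m → ∀ (x : ZMod m → V) (e : ZMod m → Set V),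
    Function.Injective x → Function.Injective e →
    (∀ i, e i ∈ E ∧ x i ∈ e i ∧ x (i + 1) ∈ e i) → ∃ i, 3 ≤ {j | x j ∈ e i}.ncard

variable {G : SimpleGraph V} {r : ℕ} {x y : ZMod r → V}

theorem Special.no_ears [Finite V] (hB : IsBalanced {Q | Maximal G.IsClique Q}) (hr : Odd r)
    (hG : Chordal G) (h : Special G r x y) : ¬ ∀ i, G.Adj (x i) (x (i + 1)) := by
  intro hx
  have h3 := h.three_le
  have hcl : ∀ i, ∃ Q : Set V, Maximal G.IsClique Q ∧ x i ∈ Q ∧ x (i + 1) ∈ Q ∧ y (i + 1) ∈ Q := by
    intro i
    have hc : G.IsClique {x i, x (i + 1), y (i + 1)} := by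
      intro a ha b hb hab
      have h1 := hx i
      have h2 := h.adj_succ hG i
      have h4 := h.adj_self hG (i + 1)
      simp only [Set.mem_insert_iff, Set.mem_singleton_iff] at ha hb
      rcases ha with rfl | rfl | rfl <;> rcases hb with rfl | rfl | rfl <;>
        first | exact absurd rfl hab | assumption | (apply SimpleGraph.Adj.symm; assumption)
    obtain ⟨Q, hQ, hQm⟩ := (Set.toFinite {s | G.IsClique s}).exists_le_maximal hc
    exact ⟨Q, hQm, hQ (by simp), hQ (by simp), hQ (by simp)⟩
  choose e he using hcl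
  have hmem : ∀ i j, x j ∈ e i → j = i ∨ j = i + 1 := by
    intro i j hj
    have h1 : x j = y (i + 1) ∨ G.Adj (x j) (y (i + 1)) := by
      by_cases heq : x j = y (i + 1)
      · exact Or.inl heq
      · exact Or.inr ((he i).1.prop hj (he i).2.2.2 heq)
    rcases (h.rel j (i + 1)).1 h1 with h2 | h2
    · exact Or.inr h2.symm
    · exact Or.inl (add_right_cancel h2).symm
  have hinj : Function.Injective e := by
    intro i j hij
    have h1 := hmem j i (hij ▸ (he i).2.1)
    have h2 := hmem j (i + 1) (hij ▸ (he i).2.2.1)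
    rcases h1 with h1 | h1
    · exact h1
    · rcases h2 with h2 | h2
      · exfalso
        exact zmod_two h3 (by linear_combination h2 - h1)
      · exact add_right_cancel h2
  obtain ⟨i, hi⟩ := hB r hr h3 x e h.injx hinj (fun i => ⟨(he i).1, (he i).2.1, (he i).2.2.1⟩)
  have hle : ({j | x j ∈ e i} : Set (ZMod r)).ncard ≤ 2 := by
    have hsub : ({j | x j ∈ e i} : Set (ZMod r)) ⊆ {i, i + 1} := fun j hj => hmem i j hj
    exact (Set.ncard_le_ncard hsub (Set.toFinite _)).trans
      ((Set.ncard_insert_le _ _).trans (by simp))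
  omega

/-- In a balanced chordal graph there is no odd special cycle of closed neighbourhoods. -/
theorem no_odd_special [Finite V] (hG : Chordal G) (hB : IsBalanced {Q | Maximal G.IsClique Q})
    (hr : Odd r) : ¬ Special G r x y := by
  intro h
  rcases h.ears hG with h1 | h1
  · exact h.no_ears hB hr hG h1
  · exact h.dual.no_ears hB hr hG h1

end Pool.Agent.BalChord
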