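import Pool.Agent.Lib.MP_1e64e3_lc.Bicolour

/-!
# Good colourings and integral dominating sets
-/

namespace Pool.Agent.BalChord

open Finset

variable {ι W : Type*}

/-- The colours seen by the member `e`. -/
noncomputable def seen [Fintype W] (A : ι → W → Prop) {k : ℕ} (c : W → Fin k) (e : ι) :
    Finset (Fin k) := by
  classical exact (univ.filter fun w => A e w).image c

theorem mem_seen [Fintype W] {A : ι → W → Prop} {k : ℕ} {c : W → Fin k} {e : ι} {i : Fin k} :
    i ∈ seen A c e ↔ ∃ w, A e w ∧ c w = i := by
  classical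
  simp [seen]

/-- Good colourings exist. -/
theorem OddFree.good [Fintype ι] [Fintype W] {A : ι → W → Prop} (hA : OddFree A) (k : ℕ)
    (hk : 0 < k) : ∃ c : W → Fin k, ∀ e, k ≤ {w | A e w}.ncard → ∀ i, ∃ w, A e w ∧ c w = i := by
  classical
  have : Nonempty (W → Fin k) := ⟨fun _ => ⟨0, hk⟩⟩
  obtain ⟨c, -, hmax⟩ := Finset.exists_max_image (univ : Finset (W → Fin k))
    (fun c => ∑ e : ι, (seen A c e).card) ⟨_, mem_univ (Classical.arbitrary _)⟩
  refine ⟨c, ?_⟩
  intro e he b
  by_contra hb
  have hbs : b ∉ seen A c e := by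
    rw [mem_seen]
    exact hb
  -- a repeated colour
  obtain ⟨w1, w2, hw12, hw1, hw2, hcw⟩ : ∃ w1 w2, w1 ≠ w2 ∧ A e w1 ∧ A e w2 ∧ c w1 = c w2 := by
    have hcard : (seen A c e).card < (univ.filter fun w => A e w).card := by
      have h1 : (seen A c e).card < k := by
        have h0 : seen A c e ≠ univ := fun h => hbs (by rw [h]; exact mem_univ b)
        have := Finset.card_lt_card (Finset.ssubset_univ_iff.2 h0)
        rwa [Finset.card_univ, Fintype.card_fin] at this
      have h2 : ({w | A e w} : Set W).ncard = (univ.filter fun w => A e w).card := by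
        rw [Set.ncard_eq_toFinset_card']
        congr 1
        ext w; simp
      omega
    obtain ⟨w1, hw1, w2, hw2, hne, heq⟩ := Finset.exists_ne_map_eq_of_card_lt_of_maps_to
      (s := univ.filter fun w => A e w) (t := seen A c e) (f := c) hcard
      (fun w hw => by
        rw [Finset.mem_coe, mem_seen]
        exact ⟨w, by simpa using hw, rfl⟩)
    exact ⟨w1, w2, hne, by simpa using hw1, by simpa using hw2, heq⟩
  obtain ⟨a, ha⟩ : ∃ a, a = c w1 := ⟨_, rfl⟩
  have hab : a ≠ b := by
    intro h
    exact hb ⟨w1, hw1, by rw [← ha, h]⟩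
  obtain ⟨d, hd⟩ := hA.bicolour (univ.filter fun w => c w = a ∨ c w = b)
  obtain ⟨c', hc'⟩ : ∃ c' : W → Fin k, ∀ w, c' w =
      if c w = a ∨ c w = b then (if d w = true then a else b) else c w := ⟨_, fun _ => rfl⟩
  -- edges with two elements in the two classes
  have hbig : ∀ f : ι, (∃ u ∈ univ.filter (fun w => c w = a ∨ c w = b),
      ∃ v ∈ univ.filter (fun w => c w = a ∨ c w = b), u ≠ v ∧ A f u ∧ A f v) →
      seen A c f ∪ {a, b} ⊆ seen A c' f := by
    intro f hf i hi
    rw [mem_seen]
    by_cases hiab : i = a ∨ i = b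
    · obtain ⟨w, hw, hfw, hdw⟩ := hd f hf (decide (i = a))
      refine ⟨w, hfw, ?_⟩
      rw [hc', if_pos (by simpa using hw), hdw]
      rcases hiab with h | h
      · simp [h]
      · subst h
        simp [hab.symm]
    · push Not at hiab
      simp only [mem_union, mem_insert, mem_singleton, hiab.1, hiab.2, or_self, or_false] at hi
      rw [mem_seen] at hi
      obtain ⟨w, hfw, hcw'⟩ := hi
      refine ⟨w, hfw, ?_⟩
      rw [hc', if_neg (by rw [hcw']; push Not; exact hiab)]
      exact hcw'
  have hle : ∀ f : ι, (seen A c f).card ≤ (seen A c' f).card := by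
    intro f
    by_cases hf : ∃ u ∈ univ.filter (fun w => c w = a ∨ c w = b),
      ∃ v ∈ univ.filter (fun w => c w = a ∨ c w = b), u ≠ v ∧ A f u ∧ A f v
    · exact Finset.card_le_card (subset_union_left.trans (hbig f hf))
    · push Not at hf
      by_cases hf1 : ∃ u, (c u = a ∨ c u = b) ∧ A f u ∧ c' u ≠ c u
      · obtain ⟨u, hu, hfu, hcu⟩ := hf1
        -- the swap of `a` and `b`
        have himg : (seen A c f).image (Equiv.swap a b) ⊆ seen A c' f := by
          intro i hi
          rw [Finset.mem_image] at hi
          obtain ⟨j, hj, rfl⟩ := hi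
          rw [mem_seen] at hj ⊢
          obtain ⟨w, hfw, rfl⟩ := hj
          refine ⟨w, hfw, ?_⟩
          by_cases hwab : c w = a ∨ c w = b
          · have hwu : w = u := by
              by_contra hne
              exact hf w (by simpa using hwab) u (by simpa using hu) hne hfw hfu
            subst hwu
            rw [hc', if_pos hwab] at hcu ⊢
            rcases hwab with h | h
            · rw [h] at hcu ⊢
              rw [Equiv.swap_apply_left]
              split_ifs at hcu ⊢ with h3
              · exact absurd rfl hcu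
              · rfl
            · rw [h] at hcu ⊢
              rw [Equiv.swap_apply_right]
              split_ifs at hcu ⊢ with h3
              · rfl
              · exact absurd rfl hcu
          · rw [hc', if_neg hwab]
            push Not at hwab
            rw [Equiv.swap_apply_of_ne_of_ne hwab.1 hwab.2]
        calc (seen A c f).card = ((seen A c f).image (Equiv.swap a b)).card :=
              (Finset.card_image_of_injective _ (Equiv.injective _)).symm
          _ ≤ _ := Finset.card_le_card himg
      · push Not at hf1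
        apply Finset.card_le_card
        intro i hi
        rw [mem_seen] at hi ⊢
        obtain ⟨w, hfw, rfl⟩ := hi
        refine ⟨w, hfw, ?_⟩
        by_cases hwab : c w = a ∨ c w = b
        · exact hf1 w hwab hfw
        · rw [hc', if_neg hwab]
  have hlt : (seen A c e).card < (seen A c' e).card := by
    have h1 := hbig e ⟨w1, by simp [ha], w2, by simp [ha, hcw], hw12, hw1, hw2⟩
    apply Finset.card_lt_card
    rw [Finset.ssubset_iff_of_subset (subset_union_left.trans h1)]
    exact ⟨b, h1 (by simp), hbs⟩
  have h1 := hmax c' (mem_univ _)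
  have h2 : ∑ f : ι, (seen A c f).card < ∑ f : ι, (seen A c' f).card :=
    Finset.sum_lt_sum (fun f _ => hle f) ⟨e, mem_univ _, hlt⟩
  omega

/-- Integrality: a fractional hitting family can be rounded. -/
theorem OddFree.exists_hitting [Fintype ι] [Fintype W] {A : ι → W → Prop} (hA : OddFree A)
    (x : W → ℕ) (m : ℕ) (hm : 0 < m) (hx : ∀ (e : ι) (S : Finset W), (∀ w, w ∈ S ↔ A e w) →
      m ≤ ∑ w ∈ S, x w) :
    ∃ D : Finset W, D.card * m ≤ ∑ w, x w ∧ ∀ e, ∃ w ∈ D, A e w := by
  classical
  have hA' : OddFree (fun (e : ι) (p : Σ w : W, Fin (x w)) => A e p.1) := by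
    intro n hn h3 p y h
    exact hA n hn h3 (fun i => (p i).1) y h
  obtain ⟨c, hc⟩ := hA'.good m hm
  have hall : ∀ e i, ∃ w, A e w.1 ∧ c w = i := by
    intro e i
    refine hc e ?_ i
    have h1 := hx e (univ.filter fun w => A e w) (by simp)
    have h2 : ({p | A e p.1} : Set (Σ w : W, Fin (x w))).ncard =
        ((univ.filter fun w => A e w).sigma fun w => (univ : Finset (Fin (x w)))).card := by
      rw [Set.ncard_eq_toFinset_card']
      congr 1
      ext p; simp
    rw [h2, Finset.card_sigma]
    simpa using h1
  have hsum : ∑ i : Fin m, (univ.filter fun p => c p = i).card = ∑ w, x w := by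
    have h1 := Finset.card_eq_sum_card_fiberwise (s := (univ : Finset (Σ w : W, Fin (x w))))
      (t := (univ : Finset (Fin m))) (f := c) (fun _ _ => Finset.mem_coe.2 (mem_univ _))
    rw [← h1, Finset.card_univ, Fintype.card_sigma]
    simp
  obtain ⟨i, hi⟩ : ∃ i : Fin m, (univ.filter fun p => c p = i).card * m ≤ ∑ w, x w := by
    by_contra hcon
    push Not at hcon
    have h1 : ∑ i : Fin m, ∑ w, x w < ∑ i : Fin m, (univ.filter fun p => c p = i).card * m :=
      Finset.sum_lt_sum_of_nonempty ⟨⟨0, hm⟩, mem_univ _⟩ (fun i _ => hcon i)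
    rw [← Finset.sum_mul, hsum] at h1
    simp only [Finset.sum_const, Finset.card_univ, Fintype.card_fin, smul_eq_mul] at h1
    rw [mul_comm] at h1
    omega
  refine ⟨(univ.filter fun p => c p = i).image Sigma.fst, ?_, ?_⟩
  · exact (Nat.mul_le_mul_right m Finset.card_image_le).trans hi
  · intro e
    obtain ⟨w, hw, hcw⟩ := hall e i
    exact ⟨w.1, by simp only [mem_image, mem_filter, mem_univ, true_and]; exact ⟨w, hcw, rfl⟩, hw⟩

end Pool.Agent.BalChord
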