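import Pool.Agent.Lib.MP_1e64e3_lc.Good

/-!
# The multiplicative rounds: analysis
-/

namespace Pool.Agent.BalChord

open Finset

/-- The closed neighbourhood relation. -/
def Nb {V : Type*} (G : SimpleGraph V) (e w : V) : Prop := w = e ∨ G.Adj w e

theorem Nb.symm {V : Type*} {G : SimpleGraph V} {e w : V} (h : Nb G e w) : Nb G w e := by
  rcases h with h | h
  · exact Or.inl h.symm
  · exact Or.inr h.symm

/-- In a balanced chordal graph the closed neighbourhoods have no odd special cycle. -/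
theorem oddFree_nb {V : Type*} [Finite V] {G : SimpleGraph V} (hG : Chordal G)
    (hB : IsBalanced {Q | Maximal G.IsClique Q}) : OddFree (Nb G) := by
  intro m hm h3 x y h
  refine no_odd_special hG hB hm (x := x) (y := y) ⟨h3, ?_, ?_, h⟩
  · intro i i' hii
    have h1 := (h i' i).1 (by rw [← hii]; exact (h i i).2 (Or.inl rfl))
    have h2 := (h i' (i + 1)).1 (by rw [← hii]; exact (h i (i + 1)).2 (Or.inr rfl))
    rcases h1 with h1 | h1
    · exact h1
    · rcases h2 with h2 | h2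
      · exfalso
        exact zmod_two h3 (by linear_combination h2 - h1)
      · exact add_right_cancel h2
  · intro j j' hjj
    have h1 := (h j j').1 (by rw [← hjj]; exact (h j j).2 (Or.inl rfl))
    have h2 := (h (j - 1) j').1 (by rw [← hjj]; exact (h (j - 1) j).2 (Or.inr (by ring)))
    rcases h1 with h1 | h1
    · exact h1.symm
    · rcases h2 with h2 | h2
      · exfalso
        exact zmod_two h3 (by linear_combination h2 - h1)
      · rw [sub_add_cancel] at h2
        exact h2.symm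

/-- One entry of the potential. -/
theorem entry_le {k t c : ℕ} (b : Bool) :
    (((t + 1 - k * (c + b.toNat) : ℕ) : ℤ)) ^ 2 ≤
      ((t - k * c : ℕ) : ℤ) ^ 2 + 2 * (((t - k * c : ℕ) : ℤ) * (1 - (k : ℤ) * (b.toNat : ℤ))) +
        (1 - (k : ℤ) * (b.toNat : ℤ)) ^ 2 := by
  obtain ⟨δ, hδ⟩ : ∃ δ : ℤ, δ = 1 - (k : ℤ) * (b.toNat : ℤ) := ⟨_, rfl⟩
  obtain ⟨X, hX⟩ : ∃ X : ℕ, X = t + 1 - k * (c + b.toNat) := ⟨_, rfl⟩
  obtain ⟨a, ha⟩ : ∃ a : ℕ, a = t - k * c := ⟨_, rfl⟩
  rw [← hδ, ← hX, ← ha]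
  have hprod : ((k * (c + b.toNat) : ℕ) : ℤ) = ((k * c : ℕ) : ℤ) + (k : ℤ) * (b.toNat : ℤ) := by
    push_cast; ring
  have hprod' : (k : ℤ) * (b.toNat : ℤ) = ((k * b.toNat : ℕ) : ℤ) := by push_cast; ring
  have hX0 : (0 : ℤ) ≤ X := Int.natCast_nonneg _
  rcases Nat.lt_or_ge (t + 1) (k * (c + b.toNat)) with h | h
  · -- X = 0
    have : X = 0 := by omega
    rw [this]
    push_cast
    nlinarith [sq_nonneg ((a : ℤ) + δ)]
  · have hXe : (X : ℤ) = (t : ℤ) + 1 - ((k * (c + b.toNat) : ℕ) : ℤ) := by omega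
    rcases Nat.lt_or_ge t (k * c) with h' | h'
    · have ha0 : a = 0 := by omega
      rw [ha0]
      have : (X : ℤ) ≤ δ := by
        rw [hXe, hprod, hδ]
        omega
      push_cast
      nlinarith
    · have hae : (a : ℤ) = (t : ℤ) - ((k * c : ℕ) : ℤ) := by omega
      have : (X : ℤ) = a + δ := by
        rw [hXe, hprod, hδ, hae]
        ring
      rw [this]
      nlinarith

variable {n : ℕ}

/-- The potential of a state. -/
def pot (k t : ℕ) (c : Fin n → ℕ) : ℕ := ∑ i, (t - k * c i) ^ 2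

theorem pot_step {k t : ℕ} (hk : 0 < k) {c : Fin n → ℕ} {b : Fin n → Bool}
    (h : ∑ i, (t - k * c i) ≤ k * ∑ i, (if b i = true then t - k * c i else 0)) :
    pot k (t + 1) (fun i => c i + (b i).toNat) ≤ pot k t c + n * k ^ 2 := by
  have h1 : ((pot k (t + 1) (fun i => c i + (b i).toNat) : ℕ) : ℤ) ≤
      ∑ i, (((t - k * c i : ℕ) : ℤ) ^ 2 +
        2 * (((t - k * c i : ℕ) : ℤ) * (1 - (k : ℤ) * ((b i).toNat : ℤ))) + (k : ℤ) ^ 2) := by
    unfold pot
    push_cast only [Nat.cast_sum, Nat.cast_pow]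
    refine Finset.sum_le_sum fun i _ => ?_
    refine (entry_le (k := k) (t := t) (c := c i) (b i)).trans ?_
    have h2 : (1 - (k : ℤ) * ((b i).toNat : ℤ)) ^ 2 ≤ (k : ℤ) ^ 2 := by
      have hk' : (1 : ℤ) ≤ k := by exact_mod_cast hk
      cases b i
      · simp; nlinarith
      · simp; nlinarith
    linarith
  have h2 : ∑ i, (((t - k * c i : ℕ) : ℤ) * (1 - (k : ℤ) * ((b i).toNat : ℤ))) ≤ 0 := by
    have h3 : ∑ i, (((t - k * c i : ℕ) : ℤ) * (1 - (k : ℤ) * ((b i).toNat : ℤ))) =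
        ∑ i, (((t - k * c i : ℕ)) : ℤ) -
          (k : ℤ) * ∑ i, ((if b i = true then t - k * c i else 0 : ℕ) : ℤ) := by
      rw [Finset.mul_sum, ← Finset.sum_sub_distrib]
      refine Finset.sum_congr rfl fun i _ => ?_
      cases b i <;> simp; ring
    rw [h3]
    have h4 : ((∑ i, (t - k * c i) : ℕ) : ℤ) ≤
        ((k * ∑ i, (if b i = true then t - k * c i else 0) : ℕ) : ℤ) := by exact_mod_cast h
    push_cast only [Nat.cast_sum, Nat.cast_mul] at h4
    linarith
  rw [Finset.sum_add_distrib, Finset.sum_add_distrib, ← Finset.mul_sum] at h1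
  have h5 : ((pot k t c : ℕ) : ℤ) = ∑ i, ((t - k * c i : ℕ) : ℤ) ^ 2 := by
    unfold pot
    push_cast only [Nat.cast_sum, Nat.cast_pow]
  rw [← h5] at h1
  simp only [Finset.sum_const, Finset.card_univ, Fintype.card_fin, nsmul_eq_mul] at h1
  have h6 : ((pot k (t + 1) (fun i => c i + (b i).toNat) : ℕ) : ℤ) ≤
      ((pot k t c + n * k ^ 2 : ℕ) : ℤ) := by
    push_cast at h1 ⊢
    linarith
  exact_mod_cast h6

/-- At the end all counts are large. -/
theorem count_large {k T : ℕ} {c : Fin n → ℕ} (hT : n * k ^ 2 * (k + 1) ^ 2 < T)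
    (h : pot k T c ≤ T * (n * k ^ 2)) (i : Fin n) : T < c i * (k + 1) := by
  by_contra hcon
  push Not at hcon
  obtain ⟨a, ha⟩ : ∃ a, a = T - k * c i := ⟨_, rfl⟩
  have h1 : a ^ 2 ≤ pot k T c := by
    rw [ha]
    exact Finset.single_le_sum (f := fun i => (T - k * c i) ^ 2) (fun _ _ => Nat.zero_le _)
      (mem_univ i)
  have h2 : k * c i ≤ T := by nlinarith
  have h3 : T ≤ (k + 1) * a := by
    have h4 : a + k * c i = T := by omega
    nlinarith
  have h5 : T * T ≤ (k + 1) ^ 2 * a ^ 2 := by nlinarith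
  have h6 : (k + 1) ^ 2 * a ^ 2 ≤ (k + 1) ^ 2 * (T * (n * k ^ 2)) :=
    Nat.mul_le_mul_left _ (h1.trans h)
  have h7 : T * T ≤ T * (n * k ^ 2 * (k + 1) ^ 2) := by nlinarith
  have hTpos : 0 < T := by omega
  have := Nat.le_of_mul_le_mul_left h7 hTpos
  omega

/-- Rejection is sound. -/
theorem reject_sound {k : ℕ} (hn : 0 < n) {A : Fin n → Fin n → Prop} {b : Fin n → Fin n → Bool}
    (hb : ∀ j i, b j i = true ↔ A j i) (w : Fin n → ℕ)
    (h : ∀ j, k * ∑ i, (if b j i = true then w i else 0) < ∑ i, w i) (D : Finset (Fin n))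
    (hDk : D.card ≤ k) (hD : ∀ i, ∃ j ∈ D, A j i) : False := by
  have h1 : ∑ i, w i ≤ ∑ j ∈ D, ∑ i, (if b j i = true then w i else 0) := by
    rw [Finset.sum_comm]
    refine Finset.sum_le_sum fun i _ => ?_
    obtain ⟨j, hj, hji⟩ := hD i
    calc w i = (if b j i = true then w i else 0) := by rw [if_pos ((hb j i).2 hji)]
      _ ≤ _ := Finset.single_le_sum (f := fun j => if b j i = true then w i else 0)
        (fun _ _ => Nat.zero_le _) hj
  rcases D.eq_empty_or_nonempty with rfl | hne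
  · obtain ⟨j, hj, _⟩ := hD ⟨0, hn⟩
    exact absurd hj (Finset.notMem_empty j)
  · have h2 : ∑ j ∈ D, k * ∑ i, (if b j i = true then w i else 0) < ∑ j ∈ D, ∑ i, w i :=
      Finset.sum_lt_sum_of_nonempty hne fun j _ => h j
    rw [← Finset.mul_sum, Finset.sum_const, smul_eq_mul] at h2
    have h3 : k * ∑ i, w i ≤ k * ∑ j ∈ D, ∑ i, (if b j i = true then w i else 0) :=
      Nat.mul_le_mul_left _ h1
    have h4 : D.card * ∑ i, w i ≤ k * ∑ i, w i := Nat.mul_le_mul_right _ hDk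
    omega

end Pool.Agent.BalChord
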