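import Pool.Agent.Lib.MP_1e64e3_lc.Chordal

/-!
# Special cycles of closed neighbourhoods in chordal graphs
-/

namespace Pool.Agent.BalChord

open SimpleGraph

variable {V : Type*}

/-- A special cycle of length `r` in the hypergraph of closed neighbourhoods of `G`: `x i` lies in
the closed neighbourhood of `y j` exactly when `j = i` or `j = i + 1`. -/
structure Special (G : SimpleGraph V) (r : ℕ) (x y : ZMod r → V) : Prop where
  three_le : 3 ≤ r
  injx : Function.Injective x
  injy : Function.Injective y
  rel : ∀ i j, (x i = y j ∨ G.Adj (x i) (y j)) ↔ (j = i ∨ j = i + 1)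

theorem zmod_ne {r : ℕ} {k : ℕ} (h1 : 0 < k) (h2 : k < r) : (k : ZMod r) ≠ 0 := by
  intro h
  rw [ZMod.natCast_eq_zero_iff] at h
  have := Nat.le_of_dvd h1 h
  omega

theorem zmod_one {r : ℕ} (hr : 3 ≤ r) : (1 : ZMod r) ≠ 0 := by
  have := zmod_ne (r := r) (k := 1) (by omega) (by omega)
  simpa using this

theorem zmod_two {r : ℕ} (hr : 3 ≤ r) : (2 : ZMod r) ≠ 0 := by
  have := zmod_ne (r := r) (k := 2) (by omega) (by omega)
  simpa using this

variable {G : SimpleGraph V} {r : ℕ} {x y : ZMod r → V}

theorem Special.dual (h : Special G r x y) : Special G r y (fun j => x (j - 1)) where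
  three_le := h.three_le
  injx := h.injy
  injy := fun a b hab => sub_left_injective (h.injx hab)
  rel := fun i j => by
    have := h.rel (j - 1) i
    rw [eq_comm, G.adj_comm, this]
    constructor
    · rintro (h1 | h1)
      · right; rw [h1]; ring
      · left; rw [h1]; ring
    · rintro (h1 | h1)
      · right; rw [h1]; ring
      · left; rw [h1]; ring

theorem Special.rev (h : Special G r x y) : Special G r (fun i => x (-i)) (fun j => y (1 - j)) where
  three_le := h.three_le
  injx := fun a b hab => neg_injective (h.injx hab)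
  injy := fun a b hab => by
    have := h.injy hab
    exact sub_right_injective this
  rel := fun i j => by
    rw [h.rel (-i) (1 - j)]
    constructor
    · rintro (h1 | h1)
      · right; linear_combination -h1
      · left; linear_combination -h1
    · rintro (h1 | h1)
      · right; linear_combination -h1
      · left; linear_combination -h1

/-- The sequence `y (i+1), x (i+1), y (i+2), …, x (i-1)`. -/
def seqYX (x y : ZMod r → V) (i : ZMod r) (t : ℕ) : V :=
  if t % 2 = 0 then y (i + 1 + (t / 2 : ℕ)) else x (i + 1 + (t / 2 : ℕ))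

theorem Special.seq_step (h : Special G r x y) (i : ZMod r) (t : ℕ) :
    seqYX x y i t = seqYX x y i (t + 1) ∨ G.Adj (seqYX x y i t) (seqYX x y i (t + 1)) := by
  unfold seqYX
  rcases Nat.mod_two_eq_zero_or_one t with ht | ht
  · rw [if_pos ht, if_neg (by omega), show (t + 1) / 2 = t / 2 by omega]
    rw [eq_comm, G.adj_comm]
    exact (h.rel _ _).2 (Or.inl rfl)
  · rw [if_neg (by omega), if_pos (by omega), show (t + 1) / 2 = t / 2 + 1 by omega]
    refine (h.rel _ _).2 (Or.inr ?_)
    push_cast; ring

theorem seq_mem {r : ℕ} (hr : 3 ≤ r) (x y : ZMod r → V) (i : ZMod r) (t : ℕ) (ht : t ≤ 2 * (r - 2) + 1) :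
    ∃ j, j ≠ i ∧ (seqYX x y i t = x j ∨ seqYX x y i t = y j) := by
  refine ⟨i + 1 + (t / 2 : ℕ), ?_, ?_⟩
  · intro h
    have h1 : ((1 + t / 2 : ℕ) : ZMod r) = 0 := by
      push_cast
      linear_combination h
    exact zmod_ne (by omega) (by omega) h1
  · unfold seqYX
    split_ifs
    · right; rfl
    · left; rfl

theorem seq_last {r : ℕ} (hr : 3 ≤ r) (x y : ZMod r → V) (i : ZMod r) :
    seqYX x y i (2 * (r - 2) + 1) = x (i - 1) := by
  unfold seqYX
  rw [if_neg (by omega), show (2 * (r - 2) + 1) / 2 = r - 2 by omega]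
  congr 1
  rw [Nat.cast_sub (by omega)]
  simp
  ring

theorem Special.far (h : Special G r x y) (i : ZMod r) :
    ¬ (x (i - 1) = y (i + 1) ∨ G.Adj (x (i - 1)) (y (i + 1))) := by
  rw [h.rel]
  rintro (h1 | h1)
  · exact zmod_two h.three_le (by linear_combination h1)
  · exact zmod_one h.three_le (by linear_combination h1)

/-- `w` is one of the vertices `x j`, `y j` with `j ≠ i`. -/
def Rest (x y : ZMod r → V) (i : ZMod r) : Set V := {w | ∃ j, j ≠ i ∧ (w = x j ∨ w = y j)}

/-- The two vertices `y (i+1)` and `x (i-1)` have the property of common neighbours. -/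
theorem Special.common (hG : Chordal G) (h : Special G r x y) (i : ZMod r) {R : Set V}
    (hR : Rest x y i ⊆ R) :
    ∃ w ∈ R, G.Adj (y (i + 1)) w ∧ ∀ p ∉ R, G.Adj p (y (i + 1)) → G.Adj p (x (i - 1)) →
      G.Adj p w := by
  have hfar := h.far i
  push Not at hfar
  have h0 : seqYX x y i 0 = y (i + 1) := by simp [seqYX]
  have hl := seq_last h.three_le x y i
  have := hG.exists_common (R := R) (z := seqYX x y i) (n := 2 * (r - 2) + 1)
    (fun t ht => hR (seq_mem h.three_le x y i t ht)) (fun t _ => h.seq_step i t)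
    (by rw [h0, hl]; exact fun h' => hfar.1 h'.symm)
    (by rw [h0, hl]; exact fun h' => hfar.2 h'.symm)
  rwa [h0, hl] at this

theorem Special.not_eq (hG : Chordal G) (h : Special G r x y) (i : ZMod r) : x i ≠ y i := by
  intro hxy
  have hr := h.three_le
  have hp : x i ∉ Rest x y i := by
    rintro ⟨j, hj, h1 | h1⟩
    · exact hj (h.injx h1).symm
    · exact hj (h.injy (hxy.symm.trans h1)).symm
  obtain ⟨w, ⟨j, hj, hw⟩, hyw, hall⟩ := h.common hG i (R := Rest x y i) le_rfl
  have h1 : G.Adj (x i) (y (i + 1)) := by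
    rcases (h.rel i (i + 1)).2 (Or.inr rfl) with h1 | h1
    · exfalso
      have := h.injy (hxy.symm.trans h1)
      exact zmod_one hr (by linear_combination -this)
    · exact h1
  have h2 : G.Adj (x i) (x (i - 1)) := by
    rw [hxy]
    rcases (h.rel (i - 1) i).2 (Or.inr (by ring)) with h1 | h1
    · exfalso
      have := h.injx (h1.trans hxy.symm)
      exact zmod_one hr (by linear_combination -this)
    · exact h1.symm
  have h3 := hall (x i) hp h1 h2
  rcases hw with rfl | rfl
  · rw [hxy] at h3
    rcases (h.rel j i).1 (Or.inr h3.symm) with h4 | h4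
    · exact hj h4.symm
    · have : j = i - 1 := by rw [h4]; ring
      subst this
      exact h.far i (Or.inr hyw.symm)
  · rcases (h.rel i j).1 (Or.inr h3) with h4 | h4
    · exact hj h4
    · subst h4
      exact G.irrefl hyw

theorem Special.adj_self (hG : Chordal G) (h : Special G r x y) (i : ZMod r) :
    G.Adj (x i) (y i) := by
  rcases (h.rel i i).2 (Or.inl rfl) with h1 | h1
  · exact absurd h1 (h.not_eq hG i)
  · exact h1

theorem Special.adj_succ (hG : Chordal G) (h : Special G r x y) (i : ZMod r) :
    G.Adj (x i) (y (i + 1)) := by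
  have := h.rev.adj_self hG (-i)
  simp only [neg_neg] at this
  rwa [show (1 : ZMod r) - -i = i + 1 by ring] at this

/-- Two consecutive ears are impossible. -/
theorem Special.not_both (hG : Chordal G) (h : Special G r x y) (i : ZMod r)
    (hx : G.Adj (x (i - 1)) (x i)) (hy : G.Adj (y i) (y (i + 1))) : False := by
  have hr := h.three_le
  obtain ⟨w, ⟨j, hj, hw⟩, hyw, hall⟩ := h.common hG i (R := Rest x y i) le_rfl
  have hpx : x i ∉ Rest x y i := by
    rintro ⟨j, hj, h1 | h1⟩
    · exact hj (h.injx h1).symm
    · rcases (h.rel i j).1 (Or.inl h1) with h2 | h2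
      · exact hj h2
      · subst h2
        have := h.adj_succ hG i
        rw [← h1] at this
        exact G.irrefl this
  have hpy : y i ∉ Rest x y i := by
    rintro ⟨j, hj, h1 | h1⟩
    · rcases (h.rel j i).1 (Or.inl h1.symm) with h2 | h2
      · exact hj h2.symm
      · have := h.adj_succ hG j
        rw [← h2, h1] at this
        exact G.irrefl this
    · exact hj (h.injy h1).symm
  have h3 := hall (x i) hpx (h.adj_succ hG i) hx.symm
  have h4 := hall (y i) hpy hy (by
    have := h.adj_succ hG (i - 1)
    rw [sub_add_cancel] at this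
    exact this.symm)
  rcases hw with rfl | rfl
  · rcases (h.rel j i).1 (Or.inr h4.symm) with h5 | h5
    · exact hj h5.symm
    · have : j = i - 1 := by rw [h5]; ring
      subst this
      exact h.far i (Or.inr hyw.symm)
  · rcases (h.rel i j).1 (Or.inr h3) with h5 | h5
    · exact hj h5
    · subst h5
      exact G.irrefl hyw

/-- One of two consecutive ears is present. -/
theorem Special.one_of (hG : Chordal G) (h : Special G r x y) (i : ZMod r)
    (hx : ¬ G.Adj (x (i - 1)) (x i)) : G.Adj (y i) (y (i + 1)) := by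
  have hr := h.three_le
  -- the sequence from `x i` around to `x (i - 1)` avoiding `y i`
  obtain ⟨R, hR⟩ : ∃ R : Set V, R = {w | (∃ j, w = x j) ∨ ∃ j, j ≠ i ∧ w = y j} := ⟨_, rfl⟩
  obtain ⟨z, hz⟩ : ∃ z : ℕ → V, ∀ t, z t = if t = 0 then x i else seqYX x y i (t - 1) :=
    ⟨_, fun _ => rfl⟩
  have hz0 : z 0 = x i := by rw [hz]; simp
  have hzn : z (2 * (r - 2) + 2) = x (i - 1) := by
    rw [hz, if_neg (by omega), show 2 * (r - 2) + 2 - 1 = 2 * (r - 2) + 1 by omega,
      seq_last hr]
  have hzR : ∀ t ≤ 2 * (r - 2) + 2, z t ∈ R := by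
    intro t ht
    rw [hz, hR]
    split_ifs with h1
    · exact Or.inl ⟨i, rfl⟩
    · obtain ⟨j, hj, h2 | h2⟩ := seq_mem hr x y i (t - 1) (by omega)
      · exact Or.inl ⟨j, h2⟩
      · exact Or.inr ⟨j, hj, h2⟩
  have hzs : ∀ t < 2 * (r - 2) + 2, z t = z (t + 1) ∨ G.Adj (z t) (z (t + 1)) := by
    intro t ht
    rw [hz, hz, if_neg (show ¬ (t + 1 = 0) by omega)]
    split_ifs with h1
    · subst h1
      right
      simp only [zero_add, Nat.sub_self]
      have : seqYX x y i 0 = y (i + 1) := by simp [seqYX]
      rw [this]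
      exact h.adj_succ hG i
    · have := h.seq_step i (t - 1)
      rwa [show t - 1 + 1 = t by omega] at this
  obtain ⟨w, hwR, hw1, hw2⟩ := hG.exists_common (R := R) hzR hzs
    (by rw [hz0, hzn]; intro h'; have := h.injx h'; exact zmod_one hr (by linear_combination this))
    (by rw [hz0, hzn]; exact fun h' => hx h'.symm)
  rw [hz0] at hw1 hw2
  rw [hzn] at hw2
  have hyR : y i ∉ R := by
    rw [hR]
    rintro (⟨j, h1⟩ | ⟨j, hj, h1⟩)
    · rcases (h.rel j i).1 (Or.inl h1.symm) with h2 | h2
      · subst h2
        have := h.adj_self hG i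
        rw [h1] at this
        exact G.irrefl this
      · have := h.adj_succ hG j
        rw [← h2, h1] at this
        exact G.irrefl this
    · exact hj (h.injy h1).symm
  have h3 := hw2 (y i) hyR (h.adj_self hG i).symm (by
    have := h.adj_succ hG (i - 1)
    rw [sub_add_cancel] at this
    exact this.symm)
  rw [hR] at hwR
  rcases hwR with ⟨j, rfl⟩ | ⟨j, hj, rfl⟩
  · rcases (h.rel j i).1 (Or.inr h3.symm) with h4 | h4
    · subst h4
      exact absurd hw1 G.irrefl
    · have : j = i - 1 := by rw [h4]; ring
      subst this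
      exact absurd hw1.symm hx
  · rcases (h.rel i j).1 (Or.inr hw1) with h4 | h4
    · exact absurd h4 hj
    · subst h4
      exact h3

/-- The ears are all on one side. -/
theorem Special.ears (hG : Chordal G) (h : Special G r x y) :
    (∀ i, G.Adj (x i) (x (i + 1))) ∨ (∀ i, G.Adj (y i) (y (i + 1))) := by
  have hr := h.three_le
  by_cases h0 : ∀ i, G.Adj (x i) (x (i + 1))
  · exact Or.inl h0
  · right
    push Not at h0
    obtain ⟨i0, hi0⟩ := h0
    -- if an `x`-ear is missing at `i` then the next one is missing as well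
    have hstep : ∀ i, ¬ G.Adj (x i) (x (i + 1)) → ¬ G.Adj (x (i + 1)) (x (i + 1 + 1)) := by
      intro i hi hi'
      have h1 : G.Adj (y (i + 1)) (y (i + 1 + 1)) := h.one_of hG (i + 1) (by
        rwa [add_sub_cancel_right])
      -- in the dual system
      have h2 := h.dual.not_both hG (i + 1 + 1)
      simp only [add_sub_cancel_right] at h2
      exact h2 h1 hi'
    have hall : ∀ t : ℕ, ¬ G.Adj (x (i0 + t)) (x (i0 + t + 1)) := by
      intro t
      induction t with
      | zero => simpa using hi0
      | succ t ih =>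
        have := hstep _ ih
        rw [show i0 + ((t + 1 : ℕ) : ZMod r) = i0 + t + 1 by push_cast; ring]
        exact this
    intro i
    have : NeZero r := ⟨by omega⟩
    apply h.one_of hG
    have h5 := hall (i - 1 - i0).val
    rw [ZMod.natCast_zmod_val] at h5
    rwa [show i0 + (i - 1 - i0) = i - 1 by ring, sub_add_cancel] at h5

end Pool.Agent.BalChord
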